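import Mathlib

/-!
# Gluing a copy of `C(D)` to `C(I)` by a positive isomorphism

`D` is the Cantor set, `X = C(D)`, `W = C(D × D)`. If `W` is positively complemented in `Y = C(I)`,
then there is a positive bijection of `Y × X` onto `Y`.
-/

set_option autoImplicit false

namespace Pool.Agent.PC80.Glue

open Set Topology

/-- The Cantor set. -/
abbrev D := ℕ → Bool

/-- `C(D)`. -/
abbrev X := C(D, ℝ)

/-- `C(D × D)`. -/
abbrev W := C(D × D, ℝ)

/-- prepend the digit `true` -/
def up (t : D) : D := fun n => Nat.casesOn n true t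

/-- delete the first digit -/
def tl (t : D) : D := fun n => t (n + 1)

/-- the initial block of digits `true` -/
def rho (t : D) : D := fun n => Nat.rec (t 0) (fun k b => b && t (k + 1)) n

lemma up_zero (t : D) : up t 0 = true := rfl

lemma up_succ (t : D) (n : ℕ) : up t (n + 1) = t n := rfl

lemma tl_up (t : D) : tl (up t) = t := rfl

lemma rho_zero (t : D) : rho t 0 = t 0 := rfl

lemma rho_succ (t : D) (n : ℕ) : rho t (n + 1) = (rho t n && t (n + 1)) := rfl

lemma rho_up (t : D) : rho (up t) = up (rho t) := by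
  funext n
  induction n with
  | zero => rfl
  | succ n ih =>
    rw [rho_succ, ih, up_succ, up_succ]
    cases n with
    | zero => simp [up_zero, rho_zero]
    | succ n => rw [up_succ, rho_succ]

lemma rho_rho (t : D) : rho (rho t) = rho t := by
  funext n
  induction n with
  | zero => rfl
  | succ n ih =>
    rw [rho_succ, ih, rho_succ, ← Bool.and_assoc, Bool.and_self]

lemma tl_rho {t : D} (h : t 0 = true) : tl (rho t) = rho (tl t) := by
  funext n
  induction n with
  | zero =>
    change rho t 1 = tl t 0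
    rw [rho_succ, rho_zero, h, Bool.true_and]
    rfl
  | succ n ih =>
    change rho t (n + 1 + 1) = _
    rw [rho_succ (tl t), ← ih, rho_succ t (n + 1)]
    rfl

lemma rho_false {t : D} (h : t 0 = false) : rho t = fun _ => false := by
  funext n
  induction n with
  | zero => rw [rho_zero, h]
  | succ n ih => rw [rho_succ, ih, Bool.false_and]

lemma up_tl {t : D} (h : t 0 = true) : up (tl t) = t := by
  funext n
  cases n with
  | zero => rw [up_zero, h]
  | succ n => rfl

lemma continuous_up : Continuous up := by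
  refine continuous_pi fun n => ?_
  cases n with
  | zero => exact continuous_const
  | succ n => exact continuous_apply n

lemma continuous_tl : Continuous tl := continuous_pi fun n => continuous_apply (n + 1)

lemma continuous_rho : Continuous rho := by
  refine continuous_pi fun n => ?_
  induction n with
  | zero => exact continuous_apply 0
  | succ n ih =>
    have h : Continuous fun p : Bool × Bool => (p.1 && p.2) := continuous_of_discreteTopology
    exact h.comp (ih.prodMk (continuous_apply (n + 1)))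

lemma continuous_ite {Z : Type*} [TopologicalSpace Z] {f g : D × D → Z} (hf : Continuous f)
    (hg : Continuous g) : Continuous fun p : D × D => if p.1 0 = true then f p else g p := by
  refine Continuous.if (fun t ht => ?_) hf hg
  have h : IsClopen {p : D × D | p.1 0 = true} :=
    (isClopen_discrete {true}).preimage
      ((continuous_apply (A := fun _ : ℕ => Bool) 0).comp continuous_fst)
  rw [h.frontier_eq] at ht
  exact absurd ht (notMem_empty t)

/-- The shift `c ↦ c ∘ up` as a linear map. -/
noncomputable def Llin : W →ₗ[ℝ] W where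
  toFun c := c.comp ⟨fun p => (up p.1, p.2), (continuous_up.comp continuous_fst).prodMk
    continuous_snd⟩
  map_add' _ _ := rfl
  map_smul' _ _ := rfl

lemma Llin_le (c : W) : ‖Llin c‖ ≤ 1 * ‖c‖ := by
  rw [one_mul, ContinuousMap.norm_le _ (norm_nonneg _)]
  exact fun t => c.norm_coe_le_norm _

/-- The shift `c ↦ c ∘ up`. -/
noncomputable def L : W →L[ℝ] W := Llin.mkContinuous 1 Llin_le

lemma L_apply (c : W) (t s : D) : L c (t, s) = c (up t, s) := rfl

lemma norm_L : ‖L‖ ≤ 1 := LinearMap.mkContinuous_norm_le _ zero_le_one _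

lemma two_inj {V : Type*} [NormedAddCommGroup V] [NormedSpace ℝ V] (L : V →L[ℝ] V)
    (hL : ‖L‖ ≤ 1) {c : V} (h : (2 : ℝ) • c + L c = 0) : c = 0 := by
  have h1 : (2 : ℝ) • c = - L c := eq_neg_of_add_eq_zero_left h
  have h2 : 2 * ‖c‖ ≤ ‖c‖ := by
    calc 2 * ‖c‖ = ‖(2 : ℝ) • c‖ := by rw [norm_smul, Real.norm_ofNat]
      _ = ‖L c‖ := by rw [h1, norm_neg]
      _ ≤ 1 * ‖c‖ := L.le_of_opNorm_le hL c
      _ = ‖c‖ := one_mul _
  have h3 : ‖c‖ ≤ 0 := by linarith
  exact norm_le_zero_iff.1 h3

lemma two_surj {V : Type*} [NormedAddCommGroup V] [NormedSpace ℝ V] [CompleteSpace V]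
    (L : V →L[ℝ] V) (hL : ‖L‖ ≤ 1) (b : V) : ∃ c : V, (2 : ℝ) • c + L c = b := by
  have h1 : ‖(-(1 / 2 : ℝ)) • L‖ < 1 := by
    rw [norm_smul, norm_neg, Real.norm_of_nonneg (by norm_num)]
    linarith
  obtain ⟨u, hu⟩ := isUnit_one_sub_of_norm_lt_one h1
  refine ⟨(↑u⁻¹ : V →L[ℝ] V) ((1 / 2 : ℝ) • b), ?_⟩
  set c := (↑u⁻¹ : V →L[ℝ] V) ((1 / 2 : ℝ) • b) with hc
  have h2 : (u : V →L[ℝ] V) c = (1 / 2 : ℝ) • b := by
    rw [hc, ← ContinuousLinearMap.mul_apply, Units.mul_inv, ContinuousLinearMap.one_apply]
  rw [hu, ContinuousLinearMap.sub_apply, ContinuousLinearMap.one_apply,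
    ContinuousLinearMap.smul_apply] at h2
  have h3 : (2 : ℝ) • (c - (-(1 / 2 : ℝ)) • L c) = (2 : ℝ) • ((1 / 2 : ℝ) • b) := by rw [h2]
  rw [smul_sub, smul_smul, smul_smul] at h3
  norm_num at h3
  exact h3

lemma L_inj {c : W} (h : (2 : ℝ) • c + L c = 0) : c = 0 := two_inj L norm_L h

lemma L_surj (b : W) : ∃ c : W, (2 : ℝ) • c + L c = b := two_surj L norm_L b

/-- `A (a, x) (t, s) = a (rho (tl t), s)` if `t` begins with `true`, and `x s` otherwise; linear
map. -/
noncomputable def Alin : (W × X) →ₗ[ℝ] W where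
  toFun p := ⟨fun q => if q.1 0 = true then p.1 (rho (tl q.1), q.2) else p.2 q.2,
    continuous_ite (p.1.continuous.comp (((continuous_rho.comp continuous_tl).comp
      continuous_fst).prodMk continuous_snd)) (p.2.continuous.comp continuous_snd)⟩
  map_add' p p' := by
    ext q
    change (if q.1 0 = true then (p + p').1 (rho (tl q.1), q.2) else (p + p').2 q.2) =
      (if q.1 0 = true then p.1 (rho (tl q.1), q.2) else p.2 q.2) +
      (if q.1 0 = true then p'.1 (rho (tl q.1), q.2) else p'.2 q.2)
    split_ifs <;> rfl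
  map_smul' r p := by
    ext q
    change (if q.1 0 = true then (r • p).1 (rho (tl q.1), q.2) else (r • p).2 q.2) =
      r • (if q.1 0 = true then p.1 (rho (tl q.1), q.2) else p.2 q.2)
    split_ifs <;> rfl

lemma Alin_apply (p : W × X) (t s : D) :
    Alin p (t, s) = if t 0 = true then p.1 (rho (tl t), s) else p.2 s := rfl

lemma Alin_le (p : W × X) : ‖Alin p‖ ≤ 1 * ‖p‖ := by
  rw [one_mul, ContinuousMap.norm_le _ (norm_nonneg _)]
  rintro ⟨t, s⟩
  rw [Alin_apply]
  split_ifs
  · exact (p.1.norm_coe_le_norm _).trans (norm_fst_le p)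
  · exact (p.2.norm_coe_le_norm _).trans (norm_snd_le p)

/-- `A (a, x) (t, s) = a (rho (tl t), s)` if `t` begins with `true`, and `x s` otherwise. -/
noncomputable def A : (W × X) →L[ℝ] W := Alin.mkContinuous 1 Alin_le

lemma A_apply (a : W) (x : X) (t s : D) :
    A (a, x) (t, s) = if t 0 = true then a (rho (tl t), s) else x s := rfl

/-- the key identity -/
lemma A_rho (a : W) (x : X) (t s : D) : A (a, x) (rho t, s) = A (a, x) (t, s) := by
  rw [A_apply, A_apply, rho_zero]
  split_ifs with h
  · rw [tl_rho h, rho_rho]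
  · rfl

lemma A_up (a : W) (x : X) (t s : D) : A (a, x) (up t, s) = a (rho t, s) := by
  rw [A_apply, up_zero, if_pos rfl, tl_up]

/-- **Gluing**: if `C(D × D)` is positively complemented in `Y`, then `Y × C(D)` is mapped onto
`Y` by a positive linear bijection. -/
theorem glue {Y : Type*} [NormedAddCommGroup Y] [NormedSpace ℝ Y] (P : Y → Prop)
    (hadd : ∀ y z, P y → P z → P (y + z))
    (E : W →L[ℝ] Y) (R : Y →L[ℝ] W) (h : ∀ F, R (E F) = F)
    (hE : ∀ F : W, (∀ q, 0 ≤ F q) → P (E F)) (hR : ∀ y, P y → ∀ q, 0 ≤ R y q) :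
    ∃ T : (Y × X) →L[ℝ] Y, Function.Bijective T ∧
      ∀ (y : Y) (x : X), P y → (∀ s, 0 ≤ x s) → P (T (y, x)) := by
  let T : (Y × X) →L[ℝ] Y := ContinuousLinearMap.fst ℝ Y X +
    E.comp ((2 : ℝ) • A.comp ((R.comp (ContinuousLinearMap.fst ℝ Y X)).prod
      (ContinuousLinearMap.snd ℝ Y X)))
  have hT : ∀ (y : Y) (x : X), T (y, x) = y + E ((2 : ℝ) • A (R y, x)) := fun y x => rfl
  refine ⟨T, ⟨?_, ?_⟩, ?_⟩
  · rw [injective_iff_map_eq_zero]
    rintro ⟨y, x⟩ h0
    rw [hT] at h0
    have h1 : R y + (2 : ℝ) • A (R y, x) = 0 := by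
      have := congrArg R h0
      rwa [map_add, h, map_zero] at this
    have h2 : A (R y, x) = 0 := by
      refine L_inj ?_
      ext q
      obtain ⟨t, s⟩ := q
      have h3 : R y (rho t, s) + 2 * A (R y, x) (rho t, s) = 0 :=
        congrArg (fun G : W => G (rho t, s)) h1
      rw [A_rho] at h3
      change 2 * A (R y, x) (t, s) + L (A (R y, x)) (t, s) = 0
      rw [L_apply, A_up, add_comm]
      exact h3
    have h4 : x = 0 := by
      ext s
      have h5 : A (R y, x) (fun _ => false, s) = x s := by
        rw [A_apply]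
        exact if_neg Bool.false_ne_true
      rw [← h5, h2]
      rfl
    rw [h2, smul_zero, map_zero, add_zero] at h0
    rw [h0, h4]
    rfl
  · intro f
    obtain ⟨c, hc⟩ := L_surj ((R f).comp ⟨fun q => (rho q.1, q.2),
      (continuous_rho.comp continuous_fst).prodMk continuous_snd⟩)
    have hc' : ∀ t s, 2 * c (t, s) + c (up t, s) = R f (rho t, s) := fun t s =>
      congrArg (fun G : W => G (t, s)) hc
    -- uniqueness
    have hcr : c.comp ⟨fun q => (rho q.1, q.2),
        (continuous_rho.comp continuous_fst).prodMk continuous_snd⟩ - c = 0 := by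
      refine L_inj ?_
      ext q
      obtain ⟨t, s⟩ := q
      change 2 * (c (rho t, s) - c (t, s)) + (c (rho (up t), s) - c (up t, s)) = 0
      have h2 := hc' (rho t) s
      rw [rho_rho, ← hc' t] at h2
      rw [rho_up]
      linarith
    have hcr' : ∀ t s, c (rho t, s) = c (t, s) := fun t s => by
      have h2 : c (rho t, s) - c (t, s) = 0 := congrArg (fun G : W => G (t, s)) hcr
      linarith
    refine ⟨(f - E ((2 : ℝ) • c), ⟨fun s => c (fun _ => false, s),
      c.continuous.comp (continuous_const.prodMk continuous_id)⟩), ?_⟩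
    rw [hT]
    have hA : A (R (f - E ((2 : ℝ) • c)), ⟨fun s => c (fun _ => false, s),
        c.continuous.comp (continuous_const.prodMk continuous_id)⟩) = c := by
      ext q
      obtain ⟨t, s⟩ := q
      rw [A_apply]
      split_ifs with h0
      · rw [map_sub, h]
        change R f (rho (tl t), s) - 2 * c (rho (tl t), s) = _
        rw [← hc' (tl t), hcr', up_tl h0]
        ring
      · rw [Bool.not_eq_true] at h0
        change c (fun _ => false, s) = _
        rw [← hcr' t, rho_false h0]
    rw [hA, sub_add_cancel]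
  · intro y x hy hx
    rw [hT]
    refine hadd _ _ hy (hE _ ?_)
    rintro ⟨t, s⟩
    change 0 ≤ 2 * A (R y, x) (t, s)
    rw [A_apply]
    split_ifs
    · exact mul_nonneg zero_le_two (hR y hy _)
    · exact mul_nonneg zero_le_two (hx _)

end Pool.Agent.PC80.Glue
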